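import Mathlib

/-!
MP_fe5fab_co: a 2-degenerate graph `G` and 3-graphs with `n` vertices and `≥ c n ^ (21/10)` edges
without a copy of the 3-uniform expansion of `G`.
-/

set_option autoImplicit false

namespace Pool.Agent.Helper80.FE

open Finset

/-! ### The 2-degenerate graphs -/

/-- every nonempty vertex set has a vertex with at most 2 neighbours inside it -/
def TwoDeg {V : Type} (G : SimpleGraph V) : Prop :=
  ∀ S : Set V, S.Nonempty → ∃ v ∈ S, ({w : V | w ∈ S ∧ G.Adj v w} : Set V).ncard ≤ 2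

/-- Adjacency of the graph obtained from `G` by adding 5 new common neighbours to every
ordered pair of vertices. -/
def extAdj {V : Type} (G : SimpleGraph V) :
    (V ⊕ (V × V × Fin 5)) → (V ⊕ (V × V × Fin 5)) → Prop
  | .inl u, .inl w => G.Adj u w
  | .inl u, .inr p => u = p.1 ∨ u = p.2.1
  | .inr p, .inl u => u = p.1 ∨ u = p.2.1
  | .inr _, .inr _ => False

/-- The graph obtained from `G` by adding 5 new common neighbours to every
ordered pair of vertices. -/
def ext {V : Type} (G : SimpleGraph V) : SimpleGraph (V ⊕ (V × V × Fin 5)) where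
  Adj := extAdj G
  symm := ⟨by
    intro a b h
    rcases a with u | p <;> rcases b with w | p' <;> simp only [extAdj] at h ⊢
    · exact G.symm.symm _ _ h
    · exact h
    · exact h⟩
  loopless := ⟨by
    intro a h
    rcases a with u | p <;> simp only [extAdj] at h
    exact G.loopless.irrefl u h⟩

theorem ext_twoDeg {V : Type} (G : SimpleGraph V) (hG : TwoDeg G) : TwoDeg (ext G) := by
  intro S hS
  by_cases h : ∃ p, (Sum.inr p : V ⊕ (V × V × Fin 5)) ∈ S
  · obtain ⟨p, hp⟩ := h
    refine ⟨_, hp, ?_⟩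
    have hsub : {w : V ⊕ (V × V × Fin 5) | w ∈ S ∧ (ext G).Adj (Sum.inr p) w} ⊆
        {Sum.inl p.1, Sum.inl p.2.1} := by
      rintro w ⟨-, hw⟩
      rcases w with u | p'
      · rcases hw with rfl | rfl <;> simp
      · exact hw.elim
    refine (Set.ncard_le_ncard hsub (by simp)).trans ?_
    refine (Set.ncard_insert_le _ _).trans ?_
    rw [Set.ncard_singleton]
  · obtain ⟨v, hv⟩ := hS
    rcases v with v | p
    swap
    · exact absurd ⟨p, hv⟩ h
    obtain ⟨u, hu, huc⟩ := hG (Sum.inl ⁻¹' S) ⟨v, hv⟩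
    refine ⟨_, hu, ?_⟩
    have hsub : {w : V ⊕ (V × V × Fin 5) | w ∈ S ∧ (ext G).Adj (Sum.inl u) w} =
        Sum.inl '' {w : V | w ∈ (Sum.inl ⁻¹' S : Set V) ∧ G.Adj u w} := by
      ext w
      rcases w with w | p
      · simp only [Set.mem_ofPred_eq, Set.mem_image, Set.mem_preimage]
        constructor
        · rintro ⟨h1, h2⟩
          exact ⟨w, ⟨h1, h2⟩, rfl⟩
        · rintro ⟨w', ⟨h1, h2⟩, h3⟩
          obtain rfl := Sum.inl_injective h3
          exact ⟨h1, h2⟩
      · simp only [Set.mem_ofPred_eq, Set.mem_image, Set.mem_preimage]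
        constructor
        · rintro ⟨h1, -⟩
          exact absurd ⟨p, h1⟩ h
        · rintro ⟨w', -, h3⟩
          cases h3
    rw [hsub, Set.ncard_image_of_injective _ Sum.inl_injective]
    exact huc

theorem top_twoDeg : TwoDeg (⊤ : SimpleGraph (Fin 3)) := by
  rintro S ⟨v, hv⟩
  refine ⟨v, hv, ?_⟩
  have hsub : {w : Fin 3 | w ∈ S ∧ (⊤ : SimpleGraph (Fin 3)).Adj v w} ⊆ {v}ᶜ := by
    rintro w ⟨-, hw⟩
    simp only [SimpleGraph.top_adj] at hw
    simpa using Ne.symm hw
  refine (Set.ncard_le_ncard hsub (Set.toFinite _)).trans ?_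
  rw [Set.ncard_compl, Set.ncard_singleton]
  simp

/-- the 2-degenerate graph: three extensions of the triangle -/
abbrev V1 := Fin 3 ⊕ (Fin 3 × Fin 3 × Fin 5)
abbrev V2 := V1 ⊕ (V1 × V1 × Fin 5)
abbrev V3 := V2 ⊕ (V2 × V2 × Fin 5)

def G3 : SimpleGraph V3 := ext (ext (ext (⊤ : SimpleGraph (Fin 3))))

theorem G3_twoDeg : TwoDeg G3 := ext_twoDeg _ (ext_twoDeg _ (ext_twoDeg _ top_twoDeg))

/-! ### The 3-graph -/

section graph

variable (K : Type) [Field K]

/-- first part -/
abbrev X := (Fin 5 → K) × (Fin 5 → K)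
/-- second part: symmetric 4 × 4 matrices -/
abbrev B := Sym2 (Fin 4) → K
/-- third part -/
abbrev A := K × (Fin 5 → K) × (Fin 4 → K)
/-- the vertices -/
abbrev W := X K ⊕ (B K ⊕ A K)

variable {K}

/-- the product of the symmetric matrix `b` and the vector `(1, l, l ^ 2, l ^ 3)` -/
def mulv (b : B K) (l : K) : Fin 4 → K := fun j => ∑ i : Fin 4, l ^ (i : ℕ) * b s(i, j)

/-- the third vertex -/
def third (x : X K) (b : B K) (l : K) : A K := (l, fun i => x.1 i + l * x.2 i, mulv b l)

/-- the colour of a vertex -/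
def col : W K → Fin 3
  | .inl _ => 0
  | .inr (.inl _) => 1
  | .inr (.inr _) => 2

/-- `w` is one of the vertices of the triple of `x, b, l` -/
def In (x : X K) (b : B K) (l : K) (w : W K) : Prop :=
  w = .inl x ∨ w = .inr (.inl b) ∨ w = .inr (.inr (third x b l))

/-- two different vertices in a common triple -/
def R (w w' : W K) : Prop := w ≠ w' ∧ ∃ x b l, In x b l w ∧ In x b l w'

theorem R.symm {w w' : W K} (h : R w w') : R w' w := by
  obtain ⟨h1, x, b, l, h2, h3⟩ := h
  exact ⟨h1.symm, x, b, l, h3, h2⟩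

theorem R.col {w w' : W K} (h : R w w') : col w ≠ col w' := by
  obtain ⟨h1, x, b, l, h2, h3⟩ := h
  rcases h2 with rfl | rfl | rfl <;> rcases h3 with rfl | rfl | rfl <;>
    simp [FE.col] at h1 ⊢

theorem R.xa {x : X K} {a : A K} (h : R (.inl x : W K) (.inr (.inr a))) :
    a.2.1 = fun i => x.1 i + a.1 * x.2 i := by
  obtain ⟨h1, x', b, l, h2, h3⟩ := h
  rcases h2 with h2 | h2 | h2 <;> rcases h3 with h3 | h3 | h3 <;> simp at h2 h3
  subst h2
  subst h3
  rfl

theorem R.ba {b : B K} {a : A K} (h : R (.inr (.inl b) : W K) (.inr (.inr a))) :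
    a.2.2 = mulv b a.1 := by
  obtain ⟨h1, x', b', l, h2, h3⟩ := h
  rcases h2 with h2 | h2 | h2 <;> rcases h3 with h3 | h3 | h3 <;> simp at h2 h3
  subst h2
  subst h3
  rfl

omit [Field K] in
theorem col_zero {w : W K} (h : col w = 0) : ∃ x, w = .inl x := by
  rcases w with x | b | a
  · exact ⟨x, rfl⟩
  · simp [col] at h
  · simp [col] at h

omit [Field K] in
theorem col_one {w : W K} (h : col w = 1) : ∃ b, w = .inr (.inl b) := by
  rcases w with x | b | a
  · simp [col] at h
  · exact ⟨b, rfl⟩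
  · simp [col] at h

omit [Field K] in
theorem col_two {w : W K} (h : col w = 2) : ∃ a, w = .inr (.inr a) := by
  rcases w with x | b | a
  · simp [col] at h
  · simp [col] at h
  · exact ⟨a, rfl⟩

/-- the bilinear form -/
def form (b : B K) (l m : K) : K :=
  ∑ j : Fin 4, m ^ (j : ℕ) * mulv b l j

theorem form_comm (b : B K) (l m : K) : form b l m = form b m l := by
  unfold form mulv
  simp only [Finset.mul_sum]
  rw [Finset.sum_comm]
  refine Finset.sum_congr rfl fun i _ => Finset.sum_congr rfl fun j _ => ?_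
  rw [Sym2.eq_swap]
  ring

/-- two common neighbours make a pair compatible -/
theorem compat {a a' : A K} (hne : a.1 ≠ a'.1) {w1 w2 : W K} (hw : w1 ≠ w2)
    (h1 : R w1 (.inr (.inr a))) (h1' : R w1 (.inr (.inr a')))
    (h2 : R w2 (.inr (.inr a))) (h2' : R w2 (.inr (.inr a'))) :
    ∑ j : Fin 4, a'.1 ^ (j : ℕ) * a.2.2 j = ∑ j : Fin 4, a.1 ^ (j : ℕ) * a'.2.2 j := by
  have key : ∀ b : B K, R (.inr (.inl b) : W K) (.inr (.inr a)) →
      R (.inr (.inl b) : W K) (.inr (.inr a')) →
      ∑ j : Fin 4, a'.1 ^ (j : ℕ) * a.2.2 j = ∑ j : Fin 4, a.1 ^ (j : ℕ) * a'.2.2 j := by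
    intro b hb hb'
    rw [hb.ba, hb'.ba]
    exact form_comm b a.1 a'.1
  rcases w1 with x1 | b1 | a1
  · rcases w2 with x2 | b2 | a2
    · exfalso
      have e1 := h1.xa
      have e1' := h1'.xa
      have e2 := h2.xa
      have e2' := h2'.xa
      have hi : ∀ i, x1.2 i = x2.2 i ∧ x1.1 i = x2.1 i := by
        intro i
        have g1 : x1.1 i + a.1 * x1.2 i = x2.1 i + a.1 * x2.2 i := by
          have := congrFun (e1.symm.trans e2) i
          exact this
        have g2 : x1.1 i + a'.1 * x1.2 i = x2.1 i + a'.1 * x2.2 i := by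
          have := congrFun (e1'.symm.trans e2') i
          exact this
        have g3 : (a.1 - a'.1) * (x1.2 i - x2.2 i) = 0 := by linear_combination g1 - g2
        have g4 : x1.2 i = x2.2 i := by
          rcases mul_eq_zero.1 g3 with h | h
          · exact absurd (sub_eq_zero.1 h) hne
          · exact sub_eq_zero.1 h
        refine ⟨g4, ?_⟩
        rw [g4] at g1
        exact add_right_cancel g1
      apply hw
      congr 1
      exact Prod.ext (funext fun i => (hi i).2) (funext fun i => (hi i).1)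
    · exact key b2 h2 h2'
    · exact absurd rfl h2.col
  · exact key b1 h1 h1'
  · exact absurd rfl h1.col

theorem mulv_sub (b b' : B K) (l : K) (j : Fin 4) :
    mulv (fun s => b s - b' s) l j = mulv b l j - mulv b' l j := by
  unfold mulv
  rw [← Finset.sum_sub_distrib]
  exact Finset.sum_congr rfl fun i _ => by ring

/-- the configuration that is forbidden -/
theorem no_config (x : X K) (b b' : B K) (S S' : Fin 5 → A K)
    (hS : Function.Injective S) (hS' : Function.Injective S')
    (h1 : ∀ m, R (.inl x : W K) (.inr (.inr (S m))))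
    (h2 : ∀ m, R (.inr (.inl b) : W K) (.inr (.inr (S m))))
    (h1' : ∀ m, R (.inl x : W K) (.inr (.inr (S' m))))
    (h2' : ∀ m, R (.inr (.inl b') : W K) (.inr (.inr (S' m))))
    (h : ∀ m m', ∃ w1 w2 : W K, w1 ≠ w2 ∧ R w1 (.inr (.inr (S m))) ∧
      R w1 (.inr (.inr (S' m'))) ∧ R w2 (.inr (.inr (S m))) ∧
      R w2 (.inr (.inr (S' m')))) : b = b' := by
  have inj : ∀ (b : B K) (S : Fin 5 → A K), Function.Injective S →
      (∀ m, R (.inl x : W K) (.inr (.inr (S m)))) →
      (∀ m, R (.inr (.inl b) : W K) (.inr (.inr (S m)))) →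
      Function.Injective fun m => (S m).1 := by
    intro b S hS h1 h2 m m' hm
    apply hS
    have hm' : (S m).1 = (S m').1 := hm
    refine Prod.ext hm' (Prod.ext ?_ ?_)
    · rw [(h1 m).xa, (h1 m').xa, hm']
    · rw [(h2 m).ba, (h2 m').ba, hm']
  have iS := inj b S hS h1 h2
  have iS' := inj b' S' hS' h1' h2'
  -- the difference
  have hz : ∀ m m', (S m).1 ≠ (S' m').1 →
      ∑ j : Fin 4, (S' m').1 ^ (j : ℕ) * mulv (fun s => b s - b' s) (S m).1 j = 0 := by
    intro m m' hne
    obtain ⟨w1, w2, hw, r1, r1', r2, r2'⟩ := h m m'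
    have hc := compat hne hw r1 r1' r2 r2'
    rw [(h2 m).ba, (h2' m').ba] at hc
    have e1 : ∑ j : Fin 4, (S m).1 ^ (j : ℕ) * mulv b' (S' m').1 j =
        ∑ j : Fin 4, (S' m').1 ^ (j : ℕ) * mulv b' (S m).1 j :=
      form_comm b' (S' m').1 (S m).1
    rw [e1] at hc
    simp only [mulv_sub, mul_sub, Finset.sum_sub_distrib]
    rw [hc, sub_self]
  have hz1 : ∀ m, mulv (fun s => b s - b' s) (S m).1 = 0 := by
    intro m
    obtain ⟨k, hk⟩ : ∃ k : Fin 5, ∀ m', m' ≠ k → (S m).1 ≠ (S' m').1 := by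
      by_cases hex : ∃ k, (S m).1 = (S' k).1
      · obtain ⟨k, hk⟩ := hex
        refine ⟨k, fun m' hm' he => hm' ?_⟩
        exact iS' (he.symm.trans hk)
      · refine ⟨0, fun m' _ he => hex ⟨m', he⟩⟩
    refine Matrix.eq_zero_of_forall_index_sum_pow_mul_eq_zero
      (f := fun i : Fin 4 => (S' (k.succAbove i)).1) ?_ ?_
    · intro i i' hi
      exact Fin.succAbove_right_injective (iS' hi)
    · intro i
      exact hz m (k.succAbove i) (hk _ (Fin.succAbove_ne k i))
  have hz2 : ∀ j, (fun i : Fin 4 => b s(i, j) - b' s(i, j)) = 0 := by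
    intro j
    refine Matrix.eq_zero_of_forall_index_sum_pow_mul_eq_zero
      (f := fun i : Fin 4 => (S (i.castSucc)).1) ?_ ?_
    · intro i i' hi
      exact Fin.castSucc_injective _ (iS hi)
    · intro i
      exact congrFun (hz1 i.castSucc) j
  funext s
  induction s using Sym2.ind with
  | _ i j => exact sub_eq_zero.1 (congrFun (hz2 j) i)

/-- `G3` does not map injectively into the shadow -/
theorem no_hom (φ : V3 → W K) (hφ : Function.Injective φ)
    (hR : ∀ u v, G3.Adj u v → R (φ u) (φ v)) : False := by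
  -- the triangle
  let P : Fin 3 → V3 := fun i => .inl (.inl (.inl i))
  have hPi : Function.Injective fun i => col (φ (P i)) := by
    intro i j hij
    by_contra hne
    exact (hR (P i) (P j) hne).col hij
  have hPs : Function.Surjective fun i => col (φ (P i)) :=
    Finite.surjective_of_injective hPi
  obtain ⟨i, hi⟩ := hPs 0
  obtain ⟨j, hj⟩ := hPs 1
  obtain ⟨k, hk⟩ := hPs 2
  simp only at hi hj hk
  let b' : V3 := .inl (.inl (.inr (i, k, 0)))
  let s : Fin 5 → V3 := fun m => .inl (.inl (.inr (i, j, m)))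
  let s' : Fin 5 → V3 := fun m => .inl (.inr (.inl i, .inr (i, k, 0), m))
  let v : Fin 5 → Fin 5 → Fin 5 → V3 := fun m m' t =>
    .inr (.inl (.inr (i, j, m)), .inr (.inl i, .inr (i, k, 0), m'), t)
  have a1 : R (φ (P i)) (φ b') := hR _ _ (Or.inl rfl)
  have a2 : R (φ (P k)) (φ b') := hR _ _ (Or.inr rfl)
  have a3 : ∀ m, R (φ (P i)) (φ (s m)) := fun m => hR _ _ (Or.inl rfl)
  have a4 : ∀ m, R (φ (P j)) (φ (s m)) := fun m => hR _ _ (Or.inr rfl)
  have a5 : ∀ m, R (φ (P i)) (φ (s' m)) := fun m => hR _ _ (Or.inl rfl)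
  have a6 : ∀ m, R (φ b') (φ (s' m)) := fun m => hR _ _ (Or.inr rfl)
  have a7 : ∀ m m' t, R (φ (v m m' t)) (φ (s m)) := fun m m' t => hR _ _ (Or.inl rfl)
  have a8 : ∀ m m' t, R (φ (v m m' t)) (φ (s' m')) := fun m m' t => hR _ _ (Or.inr rfl)
  have cb' : col (φ b') = 1 := by
    have e1 := a1.col
    have e2 := a2.col
    rw [hi] at e1
    rw [hk] at e2
    revert e1 e2
    generalize col (φ b') = c
    revert c
    decide
  have cs : ∀ m, col (φ (s m)) = 2 := by
    intro m
    have e1 := (a3 m).col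
    have e2 := (a4 m).col
    rw [hi] at e1
    rw [hj] at e2
    revert e1 e2
    generalize col (φ (s m)) = c
    revert c
    decide
  have cs' : ∀ m, col (φ (s' m)) = 2 := by
    intro m
    have e1 := (a5 m).col
    have e2 := (a6 m).col
    rw [hi] at e1
    rw [cb'] at e2
    revert e1 e2
    generalize col (φ (s' m)) = c
    revert c
    decide
  obtain ⟨x, hx⟩ := col_zero hi
  obtain ⟨b, hb⟩ := col_one hj
  obtain ⟨bb, hbb⟩ := col_one cb'
  choose S hS using fun m => col_two (cs m)
  choose S' hS' using fun m => col_two (cs' m)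
  have hbeq : b = bb := by
    refine no_config x b bb S S' ?_ ?_ ?_ ?_ ?_ ?_ ?_
    · intro m m' hm
      have : φ (s m) = φ (s m') := by rw [hS, hS, hm]
      have := hφ this
      simpa [s] using this
    · intro m m' hm
      have : φ (s' m) = φ (s' m') := by rw [hS', hS', hm]
      have := hφ this
      simpa [s'] using this
    · intro m
      rw [← hx, ← hS]
      exact a3 m
    · intro m
      rw [← hb, ← hS]
      exact a4 m
    · intro m
      rw [← hx, ← hS']
      exact a5 m
    · intro m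
      rw [← hbb, ← hS']
      exact a6 m
    · intro m m'
      refine ⟨φ (v m m' 0), φ (v m m' 1), ?_, ?_, ?_, ?_, ?_⟩
      · intro he
        have := hφ he
        simp [v] at this
      · rw [← hS]; exact a7 m m' 0
      · rw [← hS']; exact a8 m m' 0
      · rw [← hS]; exact a7 m m' 1
      · rw [← hS']; exact a8 m m' 1
  have : φ (P j) = φ b' := by rw [hb, hbb, hbeq]
  have := hφ this
  simp [P, b'] at this

end graph

end Pool.Agent.Helper80.FE
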