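import Pool.Agent.Helper80.FE.CoreG

/-!
MP_fe5fab_co: the 3-graphs with `3 p ^ 10` vertices and `p ^ 21` edges.
-/

set_option autoImplicit false

namespace Pool.Agent.Helper80.FE

open Finset

theorem card_W (p : ℕ) [Fact p.Prime] : Fintype.card (W (ZMod p)) = 3 * p ^ 10 := by
  have h : Fintype.card (Sym2 (Fin 4)) = 10 := by rw [Sym2.card]; rfl
  simp only [Fintype.card_sum, Fintype.card_prod, Fintype.card_fun, ZMod.card, h,
    Fintype.card_fin]
  ring

/-- the triple -/
noncomputable def trip {p n : ℕ} [Fact p.Prime] (e : W (ZMod p) ≃ Fin n)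
    (t : X (ZMod p) × B (ZMod p) × ZMod p) : Finset (Fin n) :=
  {e (.inl t.1), e (.inr (.inl t.2.1)), e (.inr (.inr (third t.1 t.2.1 t.2.2)))}

theorem trip_card {p n : ℕ} [Fact p.Prime] (e : W (ZMod p) ≃ Fin n)
    (t : X (ZMod p) × B (ZMod p) × ZMod p) : (trip e t).card = 3 := by
  rw [Finset.card_eq_three]
  refine ⟨_, _, _, ?_, ?_, ?_, rfl⟩ <;> simp

theorem trip_injective {p n : ℕ} [Fact p.Prime] (e : W (ZMod p) ≃ Fin n) :
    Function.Injective (trip e) := by
  rintro ⟨x, b, l⟩ ⟨x', b', l'⟩ h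
  have h1 : e (.inl x) ∈ trip e (x', b', l') := by rw [← h]; simp [trip]
  have h2 : e (.inr (.inl b)) ∈ trip e (x', b', l') := by rw [← h]; simp [trip]
  have h3 : e (.inr (.inr (third x b l))) ∈ trip e (x', b', l') := by
    rw [← h]; simp [trip]
  simp [trip] at h1 h2 h3
  obtain rfl := h1
  obtain rfl := h2
  have : l = l' := congrArg Prod.fst h3
  rw [this]

/-- the 3-graph -/
noncomputable def HH {p n : ℕ} [Fact p.Prime] (e : W (ZMod p) ≃ Fin n) :
    Finset (Finset (Fin n)) := Finset.univ.image (trip e)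

theorem HH_card {p n : ℕ} [Fact p.Prime] (e : W (ZMod p) ≃ Fin n) :
    (HH e).card = p ^ 21 := by
  have h : Fintype.card (Sym2 (Fin 4)) = 10 := by rw [Sym2.card]; rfl
  rw [HH, Finset.card_image_of_injective _ (trip_injective e), Finset.card_univ]
  simp only [Fintype.card_prod, Fintype.card_fun, ZMod.card, h, Fintype.card_fin]
  ring

theorem mem_trip {p n : ℕ} [Fact p.Prime] (e : W (ZMod p) ≃ Fin n)
    (t : X (ZMod p) × B (ZMod p) × ZMod p) (i : Fin n) :
    i ∈ trip e t ↔ In t.1 t.2.1 t.2.2 (e.symm i) := by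
  simp only [trip, Finset.mem_insert, Finset.mem_singleton, In, Equiv.symm_apply_eq]

theorem HH_free {p n : ℕ} [Fact p.Prime] (e : W (ZMod p) ≃ Fin n) (f : V3 → Fin n)
    (g : V3 → V3 → Fin n) (hf : Function.Injective f)
    (h : ∀ u v, G3.Adj u v → ({f u, f v, g u v} : Finset (Fin n)) ∈ HH e) : False := by
  refine no_hom (fun u => e.symm (f u)) (e.symm.injective.comp hf) ?_
  intro u v huv
  refine ⟨fun he => G3.ne_of_adj huv (hf (e.symm.injective he)), ?_⟩
  have := h u v huv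
  rw [HH, Finset.mem_image] at this
  obtain ⟨t, -, ht⟩ := this
  refine ⟨t.1, t.2.1, t.2.2, ?_, ?_⟩
  · rw [← mem_trip, ht]; simp
  · rw [← mem_trip, ht]; simp

end Pool.Agent.Helper80.FE
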